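import Pool.Agent.MHP.StmtsT

/-!
# Row EXT of squad MHP (helper27)
-/

set_option autoImplicit false

namespace Pool.Agent.MHP.H27

open Pool.Agent.HMT Pool.Agent.MHP

theorem emb_rel {V W : Type} (C : SimpleGraph V) (r : V) (x : W)
    (π : Setoid (W ⊕ {v : V // v ≠ r})) (h : ∀ a b, C.Adj a b → π.r (emb r x a) (emb r x b))
    {a b : V} (p : C.Walk a b) : π.r (emb r x a) (emb r x b) := by
  induction p with
  | nil => exact π.refl' _
  | cons hab _ ih => exact π.trans' (h _ _ hab) ih

theorem ret_rel {V W : Type} (C : SimpleGraph V) (r : V) (x : W)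
    (π : Setoid (W ⊕ {v : V // v ≠ r})) (hC : C.Connected)
    (h : ∀ a b, C.Adj a b → π.r (emb r x a) (emb r x b)) (p : W ⊕ {v : V // v ≠ r}) :
    π.r p (Sum.inl (ret r x p)) := by
  rcases p with w | v
  · exact π.refl' _
  · obtain ⟨q⟩ := hC.preconnected v.1 r
    have h1 := emb_rel C r x π h q
    rw [emb_root, emb_of_ne r x v.1 v.2] at h1
    exact h1

theorem ext : ExtStmt := by
  refine ⟨?_, ?_⟩
  · intro V W C r x π hC h
    have key := ret_rel C r x π hC h
    refine Setoid.ext fun p q => ?_
    show π.r p q ↔ π.r (Sum.inl (ret r x p)) (Sum.inl (ret r x q))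
    constructor
    · intro hpq
      exact π.trans' (π.symm' (key p)) (π.trans' hpq (key q))
    · intro hpq
      exact π.trans' (key p) (π.trans' hpq (π.symm' (key q)))
  · intro V W r x π₀
    refine Nat.card_congr (Equiv.ofBijective
      (Quotient.map' (s₁ := π₀.comap (ret r x)) (s₂ := π₀) (ret r x) (fun a b hab => hab))
      ⟨?_, ?_⟩)
    · intro a b hab
      induction a using Quotient.inductionOn'
      induction b using Quotient.inductionOn'
      rw [Quotient.map'_mk'', Quotient.map'_mk''] at hab
      have h1 := Quotient.exact' (s₁ := π₀) hab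
      exact Quotient.sound' (s₁ := π₀.comap (ret r x)) h1
    · intro b
      induction b using Quotient.inductionOn' with
      | h w => exact ⟨Quotient.mk'' (Sum.inl w), rfl⟩

end Pool.Agent.MHP.H27
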